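import Mathlib
import Pool.Agent.H892.KT.Stm

/-!
# Kato surfaces and birational structures: transitions along chains
-/

set_option autoImplicit false

open Filter Topology Set
open scoped Manifold ContDiff

namespace Pool.Agent.H571.KT

open Pool.Agent.H892.KT

theorem map_nhds_of_locDiff {X : Type} [TopologicalSpace X] [ChartedSpace (ℂ × ℂ) X]
    {q : ℂ × ℂ → X} {y : ℂ × ℂ} (h : IsLocalDiffeomorphAt 𝓘(ℂ, ℂ × ℂ) 𝓘(ℂ, ℂ × ℂ) ω q y) :
    Filter.map q (𝓝 y) = 𝓝 (q y) := by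
  obtain ⟨Φ, hy, he⟩ := h
  have h1 := Φ.toOpenPartialHomeomorph.map_nhds_eq hy
  have h2 : Filter.map q (𝓝 y) = Filter.map Φ.toOpenPartialHomeomorph (𝓝 y) := by
    refine Filter.map_congr ?_
    filter_upwards [Φ.open_source.mem_nhds hy] with x hx using he hx
  rw [h2, h1]
  exact congrArg 𝓝 (he hy).symm

theorem self_of_nh {n : ℕ} {r : Pt n} {p : Pt n → Prop} (h : ∀ᶠ r1 in nh r, p r1) : p r := by
  cases r with
  | P i y => exact (Filter.eventually_map.1 (show ∀ᶠ r1 in Filter.map (Pt.P i) (𝓝 y), p r1 from h)).self_of_nhds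
  | R i z => exact (Filter.eventually_map.1 (show ∀ᶠ r1 in Filter.map (Pt.R i) (𝓝 z), p r1 from h)).self_of_nhds

theorem dom2_dom {n : ℕ} {K : KatoData n} {V : ZMod n → Set (ℂ × ℂ)} (hV : ∀ i, V i ⊆ K.U i)
    {r : Pt n} (h : r ∈ dom2 V) : r ∈ K.dom := by
  cases r with
  | P i y => exact ⟨hV i h.1, h.2⟩
  | R i z =>
    have h1 : z.1 = 0 := h
    have h2 : bB z = 0 := by
      unfold bB
      rw [h1, zero_mul]
      rfl
    change bB z ∈ K.U i
    rw [h2]
    exact K.zero_mem i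

theorem map_nh {n : ℕ} {K : KatoData n} {X : Type} [TopologicalSpace X] [ChartedSpace (ℂ × ℂ) X]
    {π : Pt n → X} (hπ : Presents K X π) {r : Pt n} (h : r ∈ K.dom) :
    Filter.map π (nh r) = 𝓝 (π r) := by
  cases r with
  | P i y =>
    have h1 := map_nhds_of_locDiff (hπ.locP i ⟨y, ⟨h.1, fun h0 => h.2 h0⟩⟩)
    change Filter.map π (Filter.map (Pt.P i) (𝓝 y)) = _
    rw [Filter.map_map]
    exact h1
  | R i z =>
    have h1 := map_nhds_of_locDiff (hπ.locR i ⟨z, h⟩)
    change Filter.map π (Filter.map (Pt.R i) (𝓝 z)) = _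
    rw [Filter.map_map]
    exact h1

theorem birAt_id (p : ℂ × ℂ) : BirAt id p := by
  have hr : ∀ q : ℂ × ℂ, RatAt (fun x => x) q := by
    intro q
    refine ⟨MvPolynomial.X 0, 1, MvPolynomial.X 1, 1, one_ne_zero, one_ne_zero, ?_⟩
    refine Filter.Eventually.of_forall fun q => ?_
    unfold ev
    simp
  refine ⟨OpenPartialHomeomorph.refl (ℂ × ℂ), mem_univ _, Filter.Eventually.of_forall fun q => rfl,
    hr p, hr _⟩

theorem glue2_dom {n : ℕ} {K : KatoData n} (D : ConjData K) {r r' : Pt n}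
    (h : Glue2 K D.V r r') : r ∈ dom2 D.V ∧ r' ∈ dom2 D.V ∧ K.Glue r r' := by
  cases h with
  | shift i y hy hb =>
    refine ⟨⟨hy, ?_⟩, ⟨D.maps i y hy, ?_⟩, KatoData.Glue.shift i y (D.subU i hy) hb⟩
    · rintro rfl
      rw [K.map_zero] at hb
      exact hb rfl
    · intro h0
      exact hb (congrArg Prod.snd h0)
  | exc i y hy ha hb =>
    refine ⟨⟨hy, ?_⟩, rfl, ?_⟩
    · rintro rfl
      rw [K.map_zero] at ha
      exact ha rfl
    · have h1 := KatoData.Glue.exc (K := K) i y (D.subU i hy) ha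
      have h2 : bK (K.σ i y) = (0, (K.σ i y).1⁻¹) := by
        unfold bK
        rw [hb, mul_zero]
      rw [h2] at h1
      exact h1

/-- the property which is proved by induction -/
def Q {n : ℕ} {K : KatoData n} (D : ConjData K) {X : Type} [TopologicalSpace X]
    (π : Pt n → X) (r r' : Pt n) : Prop :=
  (r ∈ dom2 D.V ↔ r' ∈ dom2 D.V) ∧ (r ∈ dom2 D.V → π r = π r' ∧ ∀ c c' : X → ℂ × ℂ,
    (∀ᶠ r1 in nh r, c (π r1) = D.ch r1) → (∀ᶠ r1 in nh r', c' (π r1) = D.ch r1) →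
    ∃ ρ, BirAt ρ (D.ch r) ∧ ∀ᶠ x in 𝓝 (π r), c' x = ρ (c x))

theorem t_TRANS (h1 : S_LINK) (h2 : S_CHART) (h3 : S_BIRCOMP) (h4 : S_BIRINV) : S_TRANS := by
  intro n K D X _ _ _ π hπ r hr r' hrr' c c' hc hc'
  have hmap : ∀ {r : Pt n}, r ∈ dom2 D.V → Filter.map π (nh r) = 𝓝 (π r) := fun h =>
    map_nh hπ (dom2_dom D.subU h)
  have key : ∀ r r' : Pt n, Relation.EqvGen (Glue2 K D.V) r r' → Q D π r r' := by
    intro r r' h
    induction h with
    | rel x y h =>
      obtain ⟨hx, hy, hg⟩ := glue2_dom D h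
      refine ⟨⟨fun _ => hy, fun _ => hx⟩, fun _ => ⟨?_, fun c c' hc hc' => ?_⟩⟩
      · exact (hπ.fibre x (dom2_dom D.subU hx) y (dom2_dom D.subU hy)).2 (Relation.EqvGen.rel _ _ hg)
      · exact h1 n K D X π hπ x y h c c' hc hc'
    | refl x =>
      refine ⟨Iff.rfl, fun hx => ⟨rfl, fun c c' hc hc' => ?_⟩⟩
      refine ⟨id, birAt_id _, ?_⟩
      rw [← hmap hx, Filter.eventually_map]
      filter_upwards [hc, hc'] with r1 e1 e2
      rw [e1, e2]
      rfl
    | symm x y _ ih =>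
      obtain ⟨ih1, ih2⟩ := ih
      refine ⟨ih1.symm, fun hy => ?_⟩
      have hx := ih1.2 hy
      obtain ⟨e0, ih3⟩ := ih2 hx
      refine ⟨e0.symm, fun c c' hc hc' => ?_⟩
      obtain ⟨ρ, hρ, hev⟩ := ih3 c' c hc' hc
      obtain ⟨ρ', hρ', hρ1, hρ2, -⟩ := h4 ρ (D.ch x) hρ
      obtain ⟨e, -, hxe, hech, -⟩ := h2 n K D X π hπ x hx
      have hex : e (π x) = D.ch x := self_of_nh hech
      have hce : ∀ᶠ z in 𝓝 (π x), c' z = e z := by
        rw [← hmap hx, Filter.eventually_map]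
        filter_upwards [hc', hech] with r1 e1 e2
        rw [e1, e2]
      have hcont : Tendsto c' (𝓝 (π x)) (𝓝 (D.ch x)) := by
        have h5 : Tendsto e (𝓝 (π x)) (𝓝 (D.ch x)) := by
          rw [← hex]
          exact e.continuousAt hxe
        exact h5.congr' (hce.mono fun z hz => hz.symm)
      refine ⟨ρ', ?_, ?_⟩
      · have h6 : ρ (D.ch x) = D.ch y := by
          have h7 : c' (π x) = D.ch x := self_of_nh hc'
          have h8 : c (π y) = D.ch y := self_of_nh hc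
          have h9 := hev.self_of_nhds
          rw [h7, e0, h8] at h9
          exact h9.symm
        rw [← h6]
        exact hρ'
      · rw [← e0]
        filter_upwards [hev, hcont.eventually hρ2] with z e1 e2
        rw [e1, e2]
    | trans x y z _ _ ih ih' =>
      obtain ⟨i1, i2⟩ := ih
      obtain ⟨j1, j2⟩ := ih'
      refine ⟨i1.trans j1, fun hx => ?_⟩
      have hy := i1.1 hx
      obtain ⟨e0, i3⟩ := i2 hx
      obtain ⟨e1, j3⟩ := j2 hy
      refine ⟨e0.trans e1, fun c c' hc hc' => ?_⟩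
      obtain ⟨e, -, hye, hech, -⟩ := h2 n K D X π hπ y hy
      obtain ⟨ρ, hρ, hev⟩ := i3 c e hc hech
      obtain ⟨ρ', hρ', hev'⟩ := j3 e c' hech hc'
      refine ⟨fun q => ρ' (ρ q), ?_, ?_⟩
      · refine h3 ρ ρ' _ hρ ?_
        have h7 : c (π x) = D.ch x := self_of_nh hc
        have h8 : e (π y) = D.ch y := self_of_nh hech
        have h9 := hev.self_of_nhds
        rw [h7, e0, h8] at h9
        rw [← h9]
        exact hρ'
      · rw [← e0] at hev'
        filter_upwards [hev, hev'] with w e2 e3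
        rw [e3, e2]
  exact ((key r r' hrr').2 hr).2 c c' hc hc'

end Pool.Agent.H571.KT
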